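import Pool.Agent.ACK.StmtsD

/-!
# Row ILG of the squad ACK: the interlacement graph is invariant under the moves
-/

set_option autoImplicit false

namespace Pool.Agent.ACK.H6

open Pool.Agent.ACK.D

theorem gi_of_same {l l' : List ℕ} (hm : ∀ x, x ∈ l ↔ x ∈ l')
    (hi : ∀ x y, Il l x y ↔ Il l' x y) : Gi l l' :=
  ⟨Equiv.subtypeEquivRight hm, fun x y => hi x.1 y.1⟩

theorem gi_symm {l l' : List ℕ} (h : Gi l l') : Gi l' l := by
  obtain ⟨e, he⟩ := h
  refine ⟨e.symm, fun x y => ?_⟩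
  have h1 := he (e.symm x) (e.symm y)
  rw [Equiv.apply_symm_apply, Equiv.apply_symm_apply] at h1
  exact h1.symm

theorem gi_trans {l l' l'' : List ℕ} (h : Gi l l') (h' : Gi l' l'') : Gi l l'' := by
  obtain ⟨e, he⟩ := h
  obtain ⟨e', he'⟩ := h'
  exact ⟨e.trans e', fun x y => (he x y).trans (he' (e x) (e y))⟩

theorem gi_ren (hILM : IlmStmt) (l : List ℕ) (f : ℕ → ℕ) (hf : Set.InjOn f {x | x ∈ l}) :
    Gi l (l.map f) := by
  let g : {x // x ∈ l} → {x // x ∈ l.map f} := fun x => ⟨f x.1, List.mem_map_of_mem x.2⟩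
  have hg : Function.Bijective g := by
    constructor
    · intro x y hxy
      have h1 : f x.1 = f y.1 := congrArg Subtype.val hxy
      exact Subtype.ext (hf x.2 y.2 h1)
    · intro y
      obtain ⟨x, hx, hxy⟩ := List.mem_map.1 y.2
      exact ⟨⟨x, hx⟩, Subtype.ext hxy⟩
  refine ⟨Equiv.ofBijective g hg, fun x y => ?_⟩
  exact (hILM l f hf x.1 x.2 y.1 y.2).symm

theorem gi_mv (hILB : IlbStmt) (hILM : IlmStmt) (hILF : IlfStmt) {l l' : List ℕ}
    (h : Mv l l') (hl : Gw l) : Gi l l' := by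
  obtain ⟨-, hrot, -, hrev, -⟩ := hILB
  cases h with
  | ren _ f hf => exact gi_ren hILM l f hf
  | rot a b =>
    exact gi_of_same (fun x => by simp only [List.mem_append]; tauto) (fun x y => hrot a b x y)
  | rev =>
    exact gi_of_same (fun x => by rw [List.mem_reverse]) (fun x y => (hrev l x y).symm)
  | fl1 x U A V B hUV =>
    exact gi_of_same (fun y => by simp only [List.mem_append, List.mem_cons]; tauto)
      (fun y z => (hILF x U A V B hUV).1 hl y z)
  | fl2 x U A V B hUV =>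
    exact gi_of_same (fun y => by simp only [List.mem_append, List.mem_cons]; tauto)
      (fun y z => (hILF x U A V B hUV).2.1 hl y z)
  | fl3 x U A V B hUV =>
    exact gi_of_same (fun y => by simp only [List.mem_append, List.mem_cons]; tauto)
      (fun y z => (hILF x U A V B hUV).2.2 hl y z)

/-- **ILG** -/
theorem ilg (hILB : IlbStmt) (hILM : IlmStmt) (hILF : IlfStmt) (hGWM : GwmStmt) : IlgStmt := by
  intro l l' h hl
  have key : ∀ a b : List ℕ, Relation.EqvGen Mv a b → ((Gw a ↔ Gw b) ∧ (Gw a → Gi a b)) := by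
    intro a b hab
    induction hab with
    | rel a b hab => exact ⟨hGWM a b hab, fun ha => gi_mv hILB hILM hILF hab ha⟩
    | refl a => exact ⟨Iff.rfl, fun _ => gi_of_same (fun _ => Iff.rfl) (fun _ _ => Iff.rfl)⟩
    | symm a b _ ih => exact ⟨ih.1.symm, fun hb => gi_symm (ih.2 (ih.1.2 hb))⟩
    | trans a b c _ _ ih1 ih2 =>
      exact ⟨ih1.1.trans ih2.1, fun ha => gi_trans (ih1.2 ha) (ih2.2 (ih1.1.1 ha))⟩
  have h1 := key l l' (Quot.eqvGen_exact h)
  exact ⟨h1.1.1 hl, h1.2 hl⟩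

end Pool.Agent.ACK.H6
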