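import Pool.Agent.ACK.StmtsC

/-!
# Row LAD of the squad ACK: the circles of the opposite state at the gaps
-/

set_option autoImplicit false

namespace Pool.Agent.ACK.H6

open Pool.Agent.ACK.C

theorem lad_same {α : Type} (A B : ℕ → α) (a : ℕ)
    (h : ∀ j < a, A j = B (j + 1) ∧ B j = A (j + 1)) :
    ∀ j ≤ a, (Even j → A j = A 0 ∧ B j = B 0) ∧ (Odd j → A j = B 0 ∧ B j = A 0) := by
  intro j
  induction j with
  | zero =>
    intro _
    exact ⟨fun _ => ⟨rfl, rfl⟩, fun h0 => absurd h0 (by decide)⟩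
  | succ j ih =>
    intro hj
    obtain ⟨h1, h2⟩ := h j (by omega)
    obtain ⟨ih1, ih2⟩ := ih (by omega)
    constructor
    · intro he
      have ho : Odd j := by
        rw [← Nat.not_even_iff_odd]
        intro h3
        exact (Nat.not_even_iff_odd.2 (Even.add_one h3)) he
      obtain ⟨h3, h4⟩ := ih2 ho
      exact ⟨h2.symm.trans h4, h1.symm.trans h3⟩
    · intro ho
      have he : Even j := by
        rw [← Nat.not_odd_iff_even]
        intro h3
        exact (Nat.not_odd_iff_even.2 (Odd.add_one h3)) ho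
      obtain ⟨h3, h4⟩ := ih1 he
      exact ⟨h2.symm.trans h4, h1.symm.trans h3⟩

theorem lad_two {α : Type} (A : ℕ → α) (a : ℕ) (h : ∀ j, j + 2 ≤ a → A j = A (j + 2)) :
    (∀ j, 2 * j ≤ a → A (2 * j) = A 0) ∧ (∀ j, 2 * j + 1 ≤ a → A (2 * j + 1) = A 1) := by
  constructor
  · intro j
    induction j with
    | zero => intro _; rfl
    | succ j ih =>
      intro hj
      have h1 := h (2 * j) (by omega)
      rw [show 2 * (j + 1) = 2 * j + 2 by ring, ← h1]
      exact ih (by omega)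
  · intro j
    induction j with
    | zero => intro _; rfl
    | succ j ih =>
      intro hj
      have h1 := h (2 * j + 1) (by omega)
      rw [show 2 * (j + 1) + 1 = 2 * j + 1 + 2 by ring, ← h1]
      exact ih (by omega)

theorem lad_other {α : Type} (A B : ℕ → α) (a : ℕ)
    (h : ∀ j < a, A j = B (a - 1 - j) ∧ A (j + 1) = B (a - j)) :
    (Even a → A 0 = A a ∧ B 0 = B a) ∧ (Odd a → A a = B a ∧ A 0 = B 0) := by
  have hA : ∀ j, j + 2 ≤ a → A j = A (j + 2) := by
    intro j hj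
    have h1 := (h j (by omega)).1
    have h2 := (h (j + 1) (by omega)).2
    rw [h1, h2, show a - (j + 1) = a - 1 - j by omega]
  have hB : ∀ j, j + 2 ≤ a → B j = B (j + 2) := by
    intro j hj
    have h1 := (h (a - 1 - j) (by omega)).1
    have h2 := (h (a - 2 - j) (by omega)).2
    rw [show a - 1 - (a - 1 - j) = j by omega] at h1
    rw [show a - (a - 2 - j) = j + 2 by omega, show a - 2 - j + 1 = a - 1 - j by omega] at h2
    rw [← h1, h2]
  obtain ⟨hA0, hA1⟩ := lad_two A a hA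
  obtain ⟨hB0, hB1⟩ := lad_two B a hB
  constructor
  · intro he
    obtain ⟨m, hm⟩ := he
    have hm2 : a = 2 * m := by omega
    subst hm2
    exact ⟨(hA0 m le_rfl).symm, (hB0 m le_rfl).symm⟩
  · intro ho
    obtain ⟨m, hm⟩ := ho
    subst hm
    obtain ⟨h1, h2⟩ := h 0 (by omega)
    rw [show 2 * m + 1 - 1 - 0 = 2 * m by omega] at h1
    rw [show 2 * m + 1 - 0 = 2 * m + 1 by omega] at h2
    constructor
    · rw [hA1 m le_rfl]
      exact h2
    · rw [h1]
      exact hB0 m (by omega)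

theorem bk_length (C : ℕ → List ℕ) (t : Tk) : (bk C t).length = (C t.1).length := by
  unfold bk
  split
  · exact List.length_reverse
  · rfl

/-- **LAD** -/
theorem lad (hCWG : CwgStmt) (hLET : LetStmt) (hLDS : LdsStmt) : LadStmt := by
  intro c C b s hS x y hxy hy hch
  have hlen : b.length = 12 := hS.len
  obtain ⟨-, -, hle⟩ := hCWG C b hS.cw
  have hl2 : (BL C b).length = 2 * c := hS.kn.len
  have hc : 1 ≤ c := by omega
  have hgap : ∀ z < 12, gp c C b z =
      gp c C b ((z + 11) % 12) + (((C (tk b z).1).length : ℕ) : ZMod (2 * c)) := by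
    intro z hz
    have h1 := (hLET c C b hc hS.cw hl2 ((z + 11) % 12) (by omega)).2.1
    rw [hlen, show ((z + 11) % 12 + 1) % 12 = z by omega, bk_length] at h1
    exact h1
  obtain ⟨a, ha⟩ : ∃ a, a = (C (tk b x).1).length := ⟨_, rfl⟩
  have hgx := hgap x (by omega)
  have hgy := hgap y hy
  rw [← hch] at hgy
  rw [← ha] at hgx hgy
  obtain ⟨A, hA⟩ : ∃ A : ℕ → Quot (CR (wd c (BL C b)) (op s)),
      A = fun j : ℕ => cl (wd c (BL C b)) (op s) (gp c C b ((x + 11) % 12) + (j : ZMod (2 * c))) :=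
    ⟨_, rfl⟩
  obtain ⟨B, hB⟩ : ∃ B : ℕ → Quot (CR (wd c (BL C b)) (op s)),
      B = fun j : ℕ => cl (wd c (BL C b)) (op s) (gp c C b ((y + 11) % 12) + (j : ZMod (2 * c))) :=
    ⟨_, rfl⟩
  have hA0 : cl (wd c (BL C b)) (op s) (gp c C b ((x + 11) % 12)) = A 0 := by
    rw [hA]
    simp only [Nat.cast_zero, add_zero]
  have hB0 : cl (wd c (BL C b)) (op s) (gp c C b ((y + 11) % 12)) = B 0 := by
    rw [hB]
    simp only [Nat.cast_zero, add_zero]
  have hAa : cl (wd c (BL C b)) (op s) (gp c C b x) = A a := by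
    rw [hA, hgx]
  have hBa : cl (wd c (BL C b)) (op s) (gp c C b y) = B a := by
    rw [hB, hgy]
  rw [hA0, hB0, hAa, hBa, ← ha]
  have hL := hLDS c C b s hS x y hxy hy hch
  rw [← ha] at hL
  have hsame : (tk b x).2 = (tk b y).2 → ∀ j < a, A j = B (j + 1) ∧ B j = A (j + 1) := by
    intro hd j hj
    obtain ⟨h1, h2⟩ := (hL j hj).1 hd
    rw [hA, hB]
    simp only [Nat.cast_add, Nat.cast_one]
    exact ⟨h1, h2⟩
  have hother : (tk b x).2 ≠ (tk b y).2 →
      ∀ j < a, A j = B (a - 1 - j) ∧ A (j + 1) = B (a - j) := by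
    intro hd j hj
    obtain ⟨h1, h2⟩ := (hL j hj).2 hd
    rw [hA, hB]
    refine ⟨h1, ?_⟩
    simp only [Nat.cast_add, Nat.cast_one]
    exact h2
  refine ⟨fun he => ?_, fun ho hd => ?_, fun ho hd => ?_⟩
  · by_cases hd : (tk b x).2 = (tk b y).2
    · obtain ⟨h1, h2⟩ := (lad_same A B a (hsame hd) a le_rfl).1 he
      exact ⟨h1.symm, h2.symm⟩
    · exact (lad_other A B a (hother hd)).1 he
  · obtain ⟨h1, h2⟩ := (lad_same A B a (hsame hd) a le_rfl).2 ho
    exact ⟨h2, h1⟩
  · exact (lad_other A B a (hother hd)).2 ho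

end Pool.Agent.ACK.H6
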